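import Pool.Agent.Lib.MP_a739c9_pr.Main

open MeasureTheory ProbabilityTheory

namespace Pool.Agent.Results.MP_a739c9_pr.HalfPlane

open Pool.Agent.Lib.MP_a739c9_pr

/-- Critical bond percolation in the upper half plane: the chemical distance between two
neighbouring boundary vertices, given that they are connected, has a finite moment of some order
greater than one. -/
theorem result (p : unitInterval) (hp : (p : ℝ) = 1 / 2) : ∃ β : ℝ, 1 < β ∧
    Integrable (fun ω : Set (Sym2 (ℤ × ℤ)) => ((halfGraph ω).dist (0, 0) (1, 0) : ℝ) ^ β)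
      (setBernoulli lattice.edgeSet p)[|{ω | (halfGraph ω).Reachable (0, 0) (1, 0)}] := by
  obtain ⟨β, h1, h2⟩ := half_plane (meas_OG _)
  exact ⟨β, h1, transfer p hp Hp β _ h2⟩

end Pool.Agent.Results.MP_a739c9_pr.HalfPlane
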