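import Pool.Agent.Lib.MP_a739c9_pr.Main

open MeasureTheory ProbabilityTheory

namespace Pool.Agent.Results.MP_a739c9_pr.MomentHalf

open Pool.Agent.Lib.MP_a739c9_pr

/-- Critical bond percolation on the square lattice: the chemical distance between two
neighbours, given that they are connected, has a finite moment of some order greater than `1/2`. -/
theorem result (p : unitInterval) (hp : (p : ℝ) = 1 / 2) : ∃ α : ℝ, 1 / 2 < α ∧
    Integrable (fun ω : Set (Sym2 (ℤ × ℤ)) =>
      ((SimpleGraph.fromEdgeSet ω).dist (0, 0) (1, 0) : ℝ) ^ α)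
      (setBernoulli lattice.edgeSet p)[|{ω |
        (SimpleGraph.fromEdgeSet ω).Reachable (0, 0) (1, 0)}] := by
  obtain ⟨α, h1, h2⟩ := full_plane (meas_OG _)
  refine ⟨α, h1, ?_⟩
  simpa [RG] using transfer p hp Set.univ α _ h2

end Pool.Agent.Results.MP_a739c9_pr.MomentHalf
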