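import Pool.Agent.Lib.SL33.Main

open MeasureTheory ProbabilityTheory

namespace Pool.Agent.Results.MP_a739c9_pr.SlitPlane

open Pool.Agent.Lib.MP_a739c9_pr Pool.Agent.Lib.SL33

/-- Critical bond percolation in the slit plane: the chemical distance between the two neighbours
at the tip of the slit, given that they are connected, has infinite mean. -/
theorem result (p : unitInterval) (hp : (p : ℝ) = 1 / 2) :
    ∫⁻ ω : Set (Sym2 (ℤ × ℤ)), ((slitGraph ω).dist (0, 0) (1, 0) : ENNReal)
      ∂(setBernoulli lattice.edgeSet p)[|{ω | (slitGraph ω).Reachable (0, 0) (1, 0)}] = ⊤ :=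
  mean_top p hp

end Pool.Agent.Results.MP_a739c9_pr.SlitPlane
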